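import Mathlib

/-!
Integer model of framed quiver mutation and the two-vertex growth process.
-/

set_option autoImplicit false

namespace Pool.Agent.Work.MP_0170c4_co

variable {V : Type} [DecidableEq V]

/-- Exchange matrix `b` and matrix `c` of `c`-vectors. -/
@[ext]
structure St (V : Type) where
  b : V → V → ℤ
  c : V → V → ℤ

/-- mutation of the exchange matrix -/
def mutB (b : V → V → ℤ) (k i j : V) : ℤ :=
  if i = k ∨ j = k then - b i j
  else b i j + (max (b i k) 0 * max (b k j) 0 - max (b j k) 0 * max (b k i) 0)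

/-- mutation of the `c`-vectors -/
def mutC (b c : V → V → ℤ) (k i f : V) : ℤ :=
  if i = k then - c k f
  else c i f + (max (b i k) 0 * max (c k f) 0 - max (- c k f) 0 * max (b k i) 0)

/-- mutation of a state -/
def St.mu (S : St V) (k : V) : St V := ⟨mutB S.b k, mutC S.b S.c k⟩

/-- green in the strong sense: nonnegative and nonzero `c`-vector -/
def grn (S : St V) (k : V) : Prop := (∀ f, 0 ≤ S.c k f) ∧ ∃ f, 0 < S.c k f

/-- red in the strong sense: nonpositive and nonzero `c`-vector -/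
def rd (S : St V) (k : V) : Prop := (∀ f, S.c k f ≤ 0) ∧ ∃ f, S.c k f < 0

/-- reachability by green mutations -/
def Reach (S S' : St V) : Prop :=
  Relation.ReflTransGen (fun A B : St V => ∃ k, grn A k ∧ B = A.mu k) S S'

theorem Reach.refl (S : St V) : Reach S S := Relation.ReflTransGen.refl

theorem Reach.trans {S S' S'' : St V} (h : Reach S S') (h' : Reach S' S'') : Reach S S'' :=
  Relation.ReflTransGen.trans h h'

theorem Reach.step {S : St V} {k : V} (h : grn S k) : Reach S (S.mu k) :=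
  Relation.ReflTransGen.single ⟨k, h, rfl⟩

theorem mu_b_ne (S : St V) {k i j : V} (hi : i ≠ k) (hj : j ≠ k) :
    (S.mu k).b i j = S.b i j +
      (max (S.b i k) 0 * max (S.b k j) 0 - max (S.b j k) 0 * max (S.b k i) 0) := by
  simp [St.mu, mutB, hi, hj]

theorem mu_b_left (S : St V) (k j : V) : (S.mu k).b k j = - S.b k j := by
  simp [St.mu, mutB]

theorem mu_b_right (S : St V) (k i : V) : (S.mu k).b i k = - S.b i k := by
  simp [St.mu, mutB]

theorem mu_c_self (S : St V) (k f : V) : (S.mu k).c k f = - S.c k f := by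
  simp [St.mu, mutC]

theorem mu_c_ne (S : St V) {k i : V} (hi : i ≠ k) (hk : grn S k) (f : V) :
    (S.mu k).c i f = S.c i f + max (S.b i k) 0 * S.c k f := by
  have h := hk.1 f
  simp only [St.mu, mutC, hi, if_false]
  rw [max_eq_left h, max_eq_right (by linarith : - S.c k f ≤ 0)]
  ring

theorem mu_skew (S : St V) (k : V) (hs : ∀ i j, S.b i j = - S.b j i) :
    ∀ i j, (S.mu k).b i j = - (S.mu k).b j i := by
  intro i j
  by_cases hi : i = k
  · subst hi; rw [mu_b_left, mu_b_right, hs i j]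
  · by_cases hj : j = k
    · subst hj; rw [mu_b_left, mu_b_right, hs i j]
    · rw [mu_b_ne S hi hj, mu_b_ne S hj hi, hs i j]; ring

theorem grn_add {S S' : St V} {k h : V} {m : ℤ} (hm : 0 ≤ m) (hk : grn S k) (hh : ∀ f, 0 ≤ S.c h f)
    (e : ∀ f, S'.c k f = S.c k f + m * S.c h f) : grn S' k := by
  refine ⟨fun f => ?_, ?_⟩
  · rw [e f]; exact add_nonneg (hk.1 f) (mul_nonneg hm (hh f))
  · obtain ⟨f, hf⟩ := hk.2
    exact ⟨f, by rw [e f]; have := mul_nonneg hm (hh f); linarith⟩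

/-- The invariant of the main phase: `p` is the red point, `h` the green head, `K` the vertices not
yet mutated, all others are retired red vertices. -/
structure Inv (b0 : V → V → ℤ) (S : St V) (p h : V) (K : Finset V) (B : ℤ) : Prop where
  skew : ∀ i j, S.b i j = - S.b j i
  ne : p ≠ h
  pK : p ∉ K
  hK : h ∉ K
  two : 2 ≤ B
  pair : S.b p h = B
  pt : rd S p
  hd : ∀ f, - S.c p f ≤ S.c h f
  kg : ∀ k ∈ K, grn S k
  z : ∀ v, v ≠ p → v ≠ h → 0 ≤ S.b h v ∧ S.b v p ≤ S.b h v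
  rr : ∀ w, w ≠ p → w ≠ h → w ∉ K → rd S w
  kr : ∀ k ∈ K, ∀ w, w ≠ p → w ≠ h → w ∉ K → 0 ≤ S.b k w
  un : ∀ k ∈ K, S.b h k = 0 → S.b k p = 0 → ∀ x, S.b k x = b0 k x
  ur : ∀ k ∈ K, S.b h k = 0 → S.b k p = 0 → ∀ w, w ≠ p → w ≠ h → w ∉ K → S.b k w = 0

theorem Inv.head {b0 : V → V → ℤ} {S : St V} {p h : V} {K : Finset V} {B : ℤ}
    (I : Inv b0 S p h K B) : grn S h := by
  refine ⟨fun f => ?_, ?_⟩
  · have := I.hd f; have := I.pt.1 f; linarith
  · obtain ⟨f, hf⟩ := I.pt.2
    exact ⟨f, by have := I.hd f; linarith⟩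

theorem Inv.tstep {b0 : V → V → ℤ} {S : St V} {p h : V} {K : Finset V} {B : ℤ}
    (I : Inv b0 S p h K B) : Inv b0 (S.mu h) h p K B ∧
      ∀ v, v ≠ p → v ≠ h → (S.mu h).b p v = B * S.b h v - S.b v p ∧ (S.mu h).b v h = S.b h v := by
  have hg := I.head
  have hhp : S.b h p = - B := by rw [I.skew, I.pair]
  have hB := I.two
  have key : ∀ v, v ≠ p → v ≠ h →
      (S.mu h).b p v = B * S.b h v - S.b v p ∧ (S.mu h).b v h = S.b h v := by
    intro v hvp hvh
    obtain ⟨z1, z2⟩ := I.z v hvp hvh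
    refine ⟨?_, ?_⟩
    · rw [mu_b_ne S I.ne hvh, I.pair, hhp, max_eq_left (by linarith : (0:ℤ) ≤ B),
        max_eq_left z1, I.skew v h, max_eq_right (by linarith : - S.b h v ≤ 0),
        I.skew p v]
      ring
    · rw [mu_b_right, I.skew v h]; ring
  have hkw : ∀ v, v ≠ p → v ≠ h → ∀ w, w ≠ p → w ≠ h → (S.mu h).b v w = S.b v w := by
    intro v hvp hvh w hwp hwh
    obtain ⟨z1, _⟩ := I.z v hvp hvh
    obtain ⟨z1', _⟩ := I.z w hwp hwh
    rw [mu_b_ne S hvh hwh, I.skew v h, I.skew w h, max_eq_right (by linarith : - S.b h v ≤ 0),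
      max_eq_right (by linarith : - S.b h w ≤ 0)]
    ring
  have hc : ∀ v, v ≠ p → v ≠ h → ∀ f, (S.mu h).c v f = S.c v f := by
    intro v hvp hvh f
    obtain ⟨z1, _⟩ := I.z v hvp hvh
    rw [mu_c_ne S hvh hg, I.skew v h, max_eq_right (by linarith : - S.b h v ≤ 0)]
    ring
  refine ⟨⟨mu_skew S h I.skew, I.ne.symm, I.hK, I.pK, hB, ?_, ?_, ?_, ?_, ?_, ?_, ?_, ?_, ?_⟩, key⟩
  · rw [mu_b_left, hhp]; ring
  · refine ⟨fun f => ?_, ?_⟩
    · rw [mu_c_self]; have := hg.1 f; linarith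
    · obtain ⟨f, hf⟩ := hg.2
      exact ⟨f, by rw [mu_c_self]; linarith⟩
  · intro f
    rw [mu_c_self, mu_c_ne S I.ne hg, I.pair, max_eq_left (by linarith : (0:ℤ) ≤ B)]
    have h1 := I.hd f
    have h2 := hg.1 f
    nlinarith
  · intro k hk
    have hkp : k ≠ p := fun e => I.pK (e ▸ hk)
    have hkh : k ≠ h := fun e => I.hK (e ▸ hk)
    exact ⟨fun f => by rw [hc k hkp hkh]; exact (I.kg k hk).1 f,
      (I.kg k hk).2.imp fun f hf => by rw [hc k hkp hkh]; exact hf⟩
  · intro v hvh hvp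
    obtain ⟨z1, z2⟩ := I.z v hvp hvh
    obtain ⟨e1, e2⟩ := key v hvp hvh
    rw [e1, e2]
    constructor <;> nlinarith
  · intro w hwh hwp hwK
    have := I.rr w hwp hwh hwK
    exact ⟨fun f => by rw [hc w hwp hwh]; exact this.1 f,
      this.2.imp fun f hf => by rw [hc w hwp hwh]; exact hf⟩
  · intro k hk w hwh hwp hwK
    have hkp : k ≠ p := fun e => I.pK (e ▸ hk)
    have hkh : k ≠ h := fun e => I.hK (e ▸ hk)
    rw [hkw k hkp hkh w hwp hwh]
    exact I.kr k hk w hwp hwh hwK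
  · intro k hk e1 e2 x
    have hkp : k ≠ p := fun e => I.pK (e ▸ hk)
    have hkh : k ≠ h := fun e => I.hK (e ▸ hk)
    obtain ⟨f1, f2⟩ := key k hkp hkh
    have g1 : S.b h k = 0 := by rw [← f2, e2]
    have g2 : S.b k p = 0 := by rw [e1, g1] at f1; linarith
    rw [← I.un k hk g1 g2 x]
    by_cases hx : x = h
    · subst hx; rw [f2, g1, I.skew k x, g1]; rfl
    · rw [mu_b_ne S hkh hx, I.skew k h, g1]; simp
  · intro k hk e1 e2 w hwh hwp hwK
    have hkp : k ≠ p := fun e => I.pK (e ▸ hk)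
    have hkh : k ≠ h := fun e => I.hK (e ▸ hk)
    obtain ⟨f1, f2⟩ := key k hkp hkh
    have g1 : S.b h k = 0 := by rw [← f2, e2]
    have g2 : S.b k p = 0 := by rw [e1, g1] at f1; linarith
    rw [hkw k hkp hkh w hwp hwh]
    exact I.ur k hk g1 g2 w hwp hwh hwK

theorem Inv.jstep {b0 : V → V → ℤ} {S : St V} {p h : V} {K : Finset V} {B : ℤ}
    (I : Inv b0 S p h K B) {j : V} (hj : j ∈ K) (hx : 2 ≤ S.b h j)
    (hbig : S.b j p + B ≤ S.b h j * S.b j p) (hy : ∀ k ∈ K, 0 ≤ S.b k p) :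
    Inv b0 (S.mu j) j h (K.erase j) (S.b h j) := by
  have hg := I.kg j hj
  have hjp : j ≠ p := fun e => I.pK (e ▸ hj)
  have hjh : j ≠ h := fun e => I.hK (e ▸ hj)
  have hB := I.two
  have hyj := hy j hj
  have hhp : S.b h p = - B := by rw [I.skew, I.pair]
  have hjhb : S.b j h = - S.b h j := I.skew j h
  have hpj : S.b p j = - S.b j p := I.skew p j
  -- the head row
  have hrow : ∀ v, v ≠ h → v ≠ j →
      (S.mu j).b h v = S.b h v + S.b h j * max (S.b j v) 0 := by
    intro v hvh hvj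
    rw [mu_b_ne S hjh.symm hvj, hjhb, max_eq_left (by linarith : (0:ℤ) ≤ S.b h j),
      max_eq_right (by linarith : - S.b h j ≤ 0)]
    ring
  have prow : ∀ v, (S.mu j).b v j = S.b j v := by
    intro v; rw [mu_b_right, I.skew v j]; ring
  have hK : ∀ k ∈ K.erase j, k ≠ j ∧ k ∈ K ∧ k ≠ p ∧ k ≠ h := by
    intro k hk
    have h1 := Finset.mem_erase.1 hk
    exact ⟨h1.1, h1.2, fun e => I.pK (e ▸ h1.2), fun e => I.hK (e ▸ h1.2)⟩
  refine ⟨mu_skew S j I.skew, hjh, by simp, ?_, hx, ?_, ?_, ?_, ?_, ?_, ?_, ?_, ?_, ?_⟩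
  · intro hh; exact I.hK (Finset.mem_of_mem_erase hh)
  · rw [mu_b_left, hjhb]; ring
  · refine ⟨fun f => ?_, ?_⟩
    · rw [mu_c_self]; have := hg.1 f; linarith
    · obtain ⟨f, hf⟩ := hg.2
      exact ⟨f, by rw [mu_c_self]; linarith⟩
  · intro f
    rw [mu_c_self, mu_c_ne S hjh.symm hg, max_eq_left (by linarith : (0:ℤ) ≤ S.b h j)]
    have h1 := I.head.1 f
    have h2 := hg.1 f
    nlinarith
  · intro k hk
    obtain ⟨hkj, hkK, hkp, hkh⟩ := hK k hk
    exact grn_add (le_max_right _ _) (I.kg k hkK) hg.1 (fun f => mu_c_ne S hkj hg f)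
  · intro v hvj hvh
    rw [prow v, hrow v hvh hvj]
    by_cases hvp : v = p
    · subst hvp
      rw [max_eq_left hyj, hhp]
      constructor <;> nlinarith
    · obtain ⟨z1, z2⟩ := I.z v hvp hvh
      rcases le_total 0 (S.b j v) with h0 | h0
      · rw [max_eq_left h0]; constructor <;> nlinarith
      · rw [max_eq_right h0]; constructor <;> nlinarith
  · intro w hwj hwh hwK
    have hwK' : w ∉ K := fun e => hwK (Finset.mem_erase.2 ⟨hwj, e⟩)
    have hred : rd S w := by
      by_cases hwp : w = p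
      · subst hwp; exact I.pt
      · exact I.rr w hwp hwh hwK'
    have hle : S.b w j ≤ 0 := by
      by_cases hwp : w = p
      · subst hwp; rw [hpj]; linarith
      · have := I.kr j hj w hwp hwh hwK'
        rw [I.skew w j]; linarith
    have hc : ∀ f, (S.mu j).c w f = S.c w f := by
      intro f; rw [mu_c_ne S hwj hg, max_eq_right hle]; ring
    exact ⟨fun f => by rw [hc]; exact hred.1 f, hred.2.imp fun f hf => by rw [hc]; exact hf⟩
  · intro k hk w hwj hwh hwK
    obtain ⟨hkj, hkK, hkp, hkh⟩ := hK k hk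
    have hwK' : w ∉ K := fun e => hwK (Finset.mem_erase.2 ⟨hwj, e⟩)
    have hle : S.b w j ≤ 0 := by
      by_cases hwp : w = p
      · subst hwp; rw [hpj]; linarith
      · have := I.kr j hj w hwp hwh hwK'
        rw [I.skew w j]; linarith
    have h0 : 0 ≤ S.b k w := by
      by_cases hwp : w = p
      · subst hwp; exact hy k hkK
      · exact I.kr k hkK w hwp hwh hwK'
    rw [mu_b_ne S hkj hwj, max_eq_right hle]
    have := mul_nonneg (le_max_right (S.b k j) 0) (le_max_right (S.b j w) 0)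
    linarith
  · intro k hk e1 e2 x
    obtain ⟨hkj, hkK, hkp, hkh⟩ := hK k hk
    rw [prow k] at e2
    rw [hrow k hkh hkj, e2] at e1
    have g1 : S.b h k = 0 := by simpa using e1
    have g2 : S.b k p = 0 := by
      have := (I.z k hkp hkh).2; have := hy k hkK; linarith
    have g3 : S.b k j = 0 := by rw [I.skew k j, e2]; rfl
    rw [← I.un k hkK g1 g2 x]
    by_cases hxj : x = j
    · subst hxj; rw [prow k, g3, e2]
    · rw [mu_b_ne S hkj hxj, g3, e2]; simp
  · intro k hk e1 e2 w hwj hwh hwK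
    obtain ⟨hkj, hkK, hkp, hkh⟩ := hK k hk
    have hwK' : w ∉ K := fun e => hwK (Finset.mem_erase.2 ⟨hwj, e⟩)
    rw [prow k] at e2
    rw [hrow k hkh hkj, e2] at e1
    have g1 : S.b h k = 0 := by simpa using e1
    have g2 : S.b k p = 0 := by
      have := (I.z k hkp hkh).2; have := hy k hkK; linarith
    have g3 : S.b k j = 0 := by rw [I.skew k j, e2]; rfl
    have g4 : S.b k w = 0 := by
      by_cases hwp : w = p
      · subst hwp; exact g2
      · exact I.ur k hkK g1 g2 w hwp hwh hwK'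
    rw [mu_b_ne S hkj hwj, g3, e2, g4]; simp

end Pool.Agent.Work.MP_0170c4_co
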