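import Mathlib

/-!
Quivers, framed quivers, mutation, green and red vertices, red size.
-/

set_option autoImplicit false

namespace Pool.Agent.Work.MP_0170c4_co

/-- A quiver on the vertex set `V` without loops and without 2-cycles, with finitely many arrows
between any two vertices: `arr i j` is the number of arrows `i → j`. (Taking `i = j`, the condition
says that there are no loops.) -/
structure Qvr (V : Type) where
  arr : V → V → ℕ
  no_two_cycle : ∀ i j, arr i j = 0 ∨ arr j i = 0

/-- The underlying undirected graph of the quiver. -/
def Qvr.graph {V : Type} (Q : Qvr V) : SimpleGraph V :=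
  SimpleGraph.fromRel (fun i j => 0 < Q.arr i j)

/-- The arrows of a quiver with mutable vertices `Sum.inl i` and frozen vertices `Sum.inr i` for
`i : V`: `S x y` is the number of arrows `x → y`. -/
abbrev Ice (V : Type) := V ⊕ V → V ⊕ V → ℕ

/-- The framed quiver: one arrow `i → i'` for every vertex `i`. -/
def framed {V : Type} [DecidableEq V] (Q : Qvr V) : Ice V
  | Sum.inl i, Sum.inl j => Q.arr i j
  | Sum.inl i, Sum.inr j => if i = j then 1 else 0
  | Sum.inr _, _ => 0

/-- Number of arrows `x → y` after the first two steps of mutation at `k`: an arrow `x → y` is added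
for each path `x → k → y`, and all arrows incident to `k` are reversed. -/
def preMut {V : Type} [DecidableEq V] (S : Ice V) (k : V) (x y : V ⊕ V) : ℕ :=
  if x = Sum.inl k ∨ y = Sum.inl k then S y x else S x y + S x (Sum.inl k) * S (Sum.inl k) y

/-- Mutation at the mutable vertex `k`: after `preMut`, a maximal collection of 2-cycles is cancelled
(`a - b` is truncated subtraction of natural numbers) and arrows between frozen vertices are
deleted. -/
def mutate {V : Type} [DecidableEq V] (S : Ice V) (k : V) : Ice V :=
  fun x y => if x.isRight ∧ y.isRight then 0 else preMut S k x y - preMut S k y x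

/-- The result of mutating at the vertices of a list, first entry first. -/
def run {V : Type} [DecidableEq V] : Ice V → List V → Ice V
  | S, [] => S
  | S, k :: s => run (mutate S k) s

/-- The mutable vertex `i` is green: there is an arrow from `i` to a frozen vertex. -/
def IsGreen {V : Type} (S : Ice V) (i : V) : Prop := ∃ j, 0 < S (Sum.inl i) (Sum.inr j)

/-- The mutable vertex `i` is red: there is an arrow from a frozen vertex to `i`. -/
def IsRed {V : Type} (S : Ice V) (i : V) : Prop := ∃ j, 0 < S (Sum.inr j) (Sum.inl i)

/-- Every mutation of the list is at a vertex that is green at that moment. -/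
def GreenSeq {V : Type} [DecidableEq V] : Ice V → List V → Prop
  | _, [] => True
  | S, k :: s => IsGreen S k ∧ GreenSeq (mutate S k) s

/-- The number of red vertices. -/
noncomputable def numRed {V : Type} (S : Ice V) : ℕ := {i | IsRed S i}.ncard

/-- `Red(Q)`: the largest number of red vertices after a green sequence. -/
noncomputable def redSize {V : Type} [DecidableEq V] (Q : Qvr V) : ℕ :=
  sSup {r | ∃ s : List V, GreenSeq (framed Q) s ∧ numRed (run (framed Q) s) = r}

/-- `Q` admits a reddening sequence. -/
def HasReddening {V : Type} [DecidableEq V] (Q : Qvr V) : Prop :=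
  ∃ s : List V, ∀ i, IsRed (run (framed Q) s) i

/-- Form (ii): `Red(Q) = |V| - 1`, and every vertex is the only green vertex after some general maximal
green sequence (a green sequence attaining `Red(Q)`). -/
def FormTwo {V : Type} [Fintype V] [DecidableEq V] (Q : Qvr V) : Prop :=
  redSize Q = Fintype.card V - 1 ∧
    ∀ v : V, ∃ s : List V, GreenSeq (framed Q) s ∧ numRed (run (framed Q) s) = redSize Q ∧
      ∀ i, IsGreen (run (framed Q) s) i ↔ i = v

end Pool.Agent.Work.MP_0170c4_co
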