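import Pool.Agent.Work.MP_0170c4_co.Core

/-!
Main phase: growth by alternating mutations at the head, absorption of one vertex after another.
-/

set_option autoImplicit false

namespace Pool.Agent.Work.MP_0170c4_co

variable {V : Type} [DecidableEq V]

theorem grow {b0 : V → V → ℤ} {p h : V} {K : Finset V} {B : ℤ} {j : V} (hj : j ∈ K)
    {S : St V} (I : Inv b0 S p h K B) (hlt : S.b j p < S.b h j) (N : ℕ) :
    ∃ S' p' h', Reach S S' ∧ Inv b0 S' p' h' K B ∧ ((p' = p ∧ h' = h) ∨ (p' = h ∧ h' = p)) ∧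
      S'.b j p' < S'.b h' j ∧ (N : ℤ) ≤ S'.b j p' := by
  induction N with
  | zero =>
    have hjp : j ≠ p := fun e => I.pK (e ▸ hj)
    have hjh : j ≠ h := fun e => I.hK (e ▸ hj)
    obtain ⟨J, key⟩ := I.tstep
    obtain ⟨e1, e2⟩ := key j hjp hjh
    obtain ⟨z1, z2⟩ := I.z j hjp hjh
    refine ⟨S.mu h, h, p, Reach.step I.head, J, Or.inr ⟨rfl, rfl⟩, ?_, ?_⟩
    · rw [e1, e2]; have := I.two; nlinarith
    · rw [e2]; simpa using z1
  | succ N ih =>
    obtain ⟨S1, p1, h1, r, I1, hph, hlt1, hN⟩ := ih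
    have hjp : j ≠ p1 := fun e => I1.pK (e ▸ hj)
    have hjh : j ≠ h1 := fun e => I1.hK (e ▸ hj)
    obtain ⟨J, key⟩ := I1.tstep
    obtain ⟨e1, e2⟩ := key j hjp hjh
    obtain ⟨z1, z2⟩ := I1.z j hjp hjh
    refine ⟨S1.mu h1, h1, p1, r.trans (Reach.step I1.head), J, ?_, ?_, ?_⟩
    · rcases hph with ⟨a, b⟩ | ⟨a, b⟩
      · exact Or.inr ⟨b, a⟩
      · exact Or.inl ⟨b, a⟩
    · rw [e1, e2]; have := I1.two; nlinarith
    · rw [e2]; push_cast; linarith

/-- Everything is ready for absorbing `j` while keeping the prescribed vertex `t` as head. -/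
theorem ready {b0 : V → V → ℤ} {p h : V} {K : Finset V} {B : ℤ} {j : V} (hj : j ∈ K)
    {S : St V} (I : Inv b0 S p h K B) (hlt : S.b j p < S.b h j) {t : V} (ht : t = p ∨ t = h) :
    ∃ S' p', Reach S S' ∧ Inv b0 S' p' t K B ∧ 3 ≤ S'.b t j ∧
      S'.b j p' + B ≤ S'.b t j * S'.b j p' ∧ ∀ k ∈ K, 0 ≤ S'.b k p' := by
  have fin : ∀ (S1 : St V) (p1 h1 : V), Inv b0 S1 p1 h1 K B → S1.b j p1 < S1.b h1 j →
      B + 2 ≤ S1.b j p1 → Inv b0 (S1.mu h1) h1 p1 K B ∧ 3 ≤ (S1.mu h1).b p1 j ∧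
      (S1.mu h1).b j h1 + B ≤ (S1.mu h1).b p1 j * (S1.mu h1).b j h1 ∧
      (∀ k ∈ K, 0 ≤ (S1.mu h1).b k h1) ∧ (S1.mu h1).b j h1 < (S1.mu h1).b p1 j ∧
      B + 2 ≤ (S1.mu h1).b j h1 := by
    intro S1 p1 h1 I1 hlt1 hN
    have hjp : j ≠ p1 := fun e => I1.pK (e ▸ hj)
    have hjh : j ≠ h1 := fun e => I1.hK (e ▸ hj)
    obtain ⟨J, key⟩ := I1.tstep
    obtain ⟨e1, e2⟩ := key j hjp hjh
    have hB := I1.two
    have hx : S1.b h1 j < B * S1.b h1 j - S1.b j p1 := by nlinarith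
    refine ⟨J, ?_, ?_, ?_, ?_, ?_⟩
    · rw [e1]; linarith
    · rw [e1, e2]; nlinarith
    · intro k hk
      have hkp : k ≠ p1 := fun e => I1.pK (e ▸ hk)
      have hkh : k ≠ h1 := fun e => I1.hK (e ▸ hk)
      rw [(key k hkp hkh).2]
      exact (I1.z k hkp hkh).1
    · rw [e1, e2]; exact hx
    · rw [e2]; linarith
  obtain ⟨S1, p1, h1, r, I1, hph, hlt1, hN⟩ := grow hj I hlt (B + 2).toNat
  have hN' : B + 2 ≤ S1.b j p1 := by
    have := I.two
    rw [Int.toNat_of_nonneg (by linarith)] at hN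
    exact hN
  obtain ⟨J, a1, a2, a3, a4, a5⟩ := fin S1 p1 h1 I1 hlt1 hN'
  by_cases e : t = p1
  · subst e
    exact ⟨S1.mu h1, h1, r.trans (Reach.step I1.head), J, a1, a2, a3⟩
  · have et : t = h1 := by
      rcases hph with ⟨u1, u2⟩ | ⟨u1, u2⟩
      · rcases ht with ht | ht
        · exact absurd (ht.trans u1.symm) e
        · exact ht.trans u2.symm
      · rcases ht with ht | ht
        · exact ht.trans u2.symm
        · exact absurd (ht.trans u1.symm) e
    subst et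
    obtain ⟨J', b1, b2, b3, _, _⟩ := fin (S1.mu t) t p1 J a4 a5
    exact ⟨(S1.mu t).mu p1, p1, (r.trans (Reach.step I1.head)).trans (Reach.step J.head), J', b1,
      b2, b3⟩

theorem exists_absorbed {b0 : V → V → ℤ}
    (hconn : ∀ U : Finset V, U.Nonempty → (∃ x, x ∉ U) → ∃ k ∈ U, ∃ x, x ∉ U ∧ b0 k x ≠ 0)
    {S : St V} {p h : V} {K : Finset V} {B : ℤ} (I : Inv b0 S p h K B) (hK : K.Nonempty) :
    ∃ j ∈ K, ¬ (S.b h j = 0 ∧ S.b j p = 0) := by
  classical
  by_contra hno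
  push Not at hno
  obtain ⟨k, hk, x, hx, hne⟩ := hconn K hK ⟨p, I.pK⟩
  obtain ⟨g1, g2⟩ := hno k hk
  rw [← I.un k hk g1 g2 x] at hne
  by_cases hxp : x = p
  · subst hxp; exact hne g2
  · by_cases hxh : x = h
    · subst hxh; rw [I.skew k x, g1] at hne; exact hne rfl
    · exact hne (I.ur k hk g1 g2 x hxp hxh hx)

theorem main_rec {b0 : V → V → ℤ}
    (hconn : ∀ U : Finset V, U.Nonempty → (∃ x, x ∉ U) → ∃ k ∈ U, ∃ x, x ∉ U ∧ b0 k x ≠ 0) :
    ∀ (n : ℕ) (K : Finset V), K.card = n → ∀ (S : St V) (p h : V) (B : ℤ),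
      Inv b0 S p h K B → 3 ≤ B → ∀ u, (u = p ∨ u = h ∨ u ∈ K) →
        ∃ S', Reach S S' ∧ grn S' u ∧ ∀ v, v ≠ u → rd S' v := by
  have base : ∀ (S : St V) (p h : V) (B : ℤ), Inv b0 S p h ∅ B → ∀ v, v ≠ h → rd S v := by
    intro S p h B I v hv
    by_cases hvp : v = p
    · subst hvp; exact I.pt
    · exact I.rr v hvp hv (by simp)
  intro n
  induction n with
  | zero =>
    intro K hK S p h B I _ u hu
    have hK' : K = ∅ := Finset.card_eq_zero.1 hK
    subst hK'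
    by_cases hup : u = p
    · subst hup
      have J := I.tstep.1
      exact ⟨S.mu h, Reach.step I.head, J.head, fun v hv => base _ _ _ _ J v hv⟩
    · have : u = h := by
        rcases hu with h1 | h1 | h1
        · exact absurd h1 hup
        · exact h1
        · simp at h1
      subst this
      exact ⟨S, Reach.refl S, I.head, fun v hv => base _ _ _ _ I v hv⟩
  | succ n ih =>
    intro K hK S p h B I hB u hu
    have hne : K.Nonempty := by
      rw [← Finset.card_pos, hK]; omega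
    obtain ⟨j, hj, habs⟩ := exists_absorbed hconn I hne
    have hjp : j ≠ p := fun e => I.pK (e ▸ hj)
    have hjh : j ≠ h := fun e => I.hK (e ▸ hj)
    obtain ⟨I1, key⟩ := I.tstep
    obtain ⟨e1, e2⟩ := key j hjp hjh
    obtain ⟨z1, z2⟩ := I.z j hjp hjh
    have hlt : (S.mu h).b j h < (S.mu h).b p j := by
      rw [e1, e2]
      rcases lt_or_eq_of_le z1 with hx | hx
      · nlinarith
      · have hy : S.b j p ≠ 0 := fun e => habs ⟨hx.symm, e⟩
        have : S.b j p < 0 := lt_of_le_of_ne (by linarith) hy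
        rw [← hx]; linarith
    obtain ⟨t, ht, htu⟩ : ∃ t, (t = h ∨ t = p) ∧ (u = t ∨ u ∈ K) := by
      rcases hu with h1 | h1 | h1
      · exact ⟨p, Or.inr rfl, Or.inl h1⟩
      · exact ⟨h, Or.inl rfl, Or.inl h1⟩
      · exact ⟨h, Or.inl rfl, Or.inr h1⟩
    obtain ⟨S2, p2, r2, I2, a1, a2, a3⟩ := ready hj I1 hlt ht
    have I3 := I2.jstep hj (by linarith) a2 a3
    obtain ⟨S4, r4, g4, d4⟩ := ih (K.erase j) (by rw [Finset.card_erase_of_mem hj, hK]; rfl)
      (S2.mu j) j t (S2.b t j) I3 a1 u (by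
        rcases htu with h1 | h1
        · exact Or.inr (Or.inl h1)
        · by_cases e : u = j
          · exact Or.inl e
          · exact Or.inr (Or.inr (Finset.mem_erase.2 ⟨e, h1⟩)))
    exact ⟨S4, (((Reach.step I.head).trans r2).trans (Reach.step (I2.kg j hj))).trans r4, g4, d4⟩

/-! ### The first phase: bringing every row into the stable region -/

/-- The invariant of the first phase. -/
structure Pre (b0 : V → V → ℤ) (S : St V) (p h : V) (B : ℤ) : Prop where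
  skew : ∀ i j, S.b i j = - S.b j i
  ne : p ≠ h
  two : 2 ≤ B
  pair : S.b p h = B
  pt : rd S p
  hd : ∀ f, - S.c p f ≤ S.c h f
  kg : ∀ k, k ≠ p → k ≠ h → grn S k
  un : ∀ k, k ≠ p → k ≠ h → S.b h k = 0 → S.b k p = 0 → ∀ x, S.b k x = b0 k x

/-- Stable region for a vertex. -/
def Zr (S : St V) (p h v : V) : Prop := 0 ≤ S.b h v ∧ S.b v p ≤ S.b h v

theorem Pre.head {b0 : V → V → ℤ} {S : St V} {p h : V} {B : ℤ}
    (I : Pre b0 S p h B) : grn S h := by
  refine ⟨fun f => ?_, ?_⟩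
  · have := I.hd f; have := I.pt.1 f; linarith
  · obtain ⟨f, hf⟩ := I.pt.2
    exact ⟨f, by have := I.hd f; linarith⟩

theorem Pre.tstep {b0 : V → V → ℤ} {S : St V} {p h : V} {B : ℤ}
    (I : Pre b0 S p h B) : Pre b0 (S.mu h) h p B ∧
      ∀ v, v ≠ p → v ≠ h → (S.mu h).b p v = B * max (S.b h v) 0 - S.b v p ∧
        (S.mu h).b v h = S.b h v := by
  have hg := I.head
  have hhp : S.b h p = - B := by rw [I.skew, I.pair]
  have hB := I.two
  have key : ∀ v, v ≠ p → v ≠ h →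
      (S.mu h).b p v = B * max (S.b h v) 0 - S.b v p ∧ (S.mu h).b v h = S.b h v := by
    intro v hvp hvh
    refine ⟨?_, ?_⟩
    · rw [mu_b_ne S I.ne hvh, I.pair, hhp, max_eq_left (by linarith : (0:ℤ) ≤ B),
        max_eq_right (by linarith : - B ≤ 0), I.skew p v]
      ring
    · rw [mu_b_right, I.skew v h]; ring
  refine ⟨⟨mu_skew S h I.skew, I.ne.symm, hB, ?_, ?_, ?_, ?_, ?_⟩, key⟩
  · rw [mu_b_left, hhp]; ring
  · refine ⟨fun f => ?_, ?_⟩
    · rw [mu_c_self]; have := hg.1 f; linarith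
    · obtain ⟨f, hf⟩ := hg.2
      exact ⟨f, by rw [mu_c_self]; linarith⟩
  · intro f
    rw [mu_c_self, mu_c_ne S I.ne hg, I.pair, max_eq_left (by linarith : (0:ℤ) ≤ B)]
    have h1 := I.hd f
    have h2 := hg.1 f
    nlinarith
  · intro k hkh hkp
    exact grn_add (le_max_right _ _) (I.kg k hkp hkh) hg.1 (fun f => mu_c_ne S hkh hg f)
  · intro k hkh hkp e1 e2 x
    obtain ⟨f1, f2⟩ := key k hkp hkh
    have g1 : S.b h k = 0 := by rw [← f2, e2]
    have g2 : S.b k p = 0 := by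
      rw [e1, g1] at f1
      simp at f1
      exact f1
    rw [← I.un k hkp hkh g1 g2 x]
    by_cases hx : x = h
    · subst hx; rw [f2, g1, I.skew k x, g1]; rfl
    · rw [mu_b_ne S hkh hx, I.skew k h, g1]; simp

theorem Zr.tstep {b0 : V → V → ℤ} {S : St V} {p h : V} {B : ℤ}
    (I : Pre b0 S p h B) {v : V} (hvp : v ≠ p) (hvh : v ≠ h) (hz : Zr S p h v) :
    Zr (S.mu h) h p v := by
  obtain ⟨e1, e2⟩ := I.tstep.2 v hvp hvh
  obtain ⟨z1, z2⟩ := hz
  have hB := I.two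
  unfold Zr
  rw [e1, e2, max_eq_left z1]
  constructor <;> nlinarith

/-- Relation between states of the first phase: reachable, with the same pair. -/
def Nxt (b0 : V → V → ℤ) (B : ℤ) (E : St V → V → V → Prop) (S : St V) (p h : V)
    (S' : St V) (p' h' : V) : Prop :=
  Reach S S' ∧ Pre b0 S' p' h' B ∧ ((p' = p ∧ h' = h) ∨ (p' = h ∧ h' = p)) ∧ E S' p' h'

theorem reach_zr {b0 : V → V → ℤ} {B : ℤ} {E : St V → V → V → Prop}
    (hE : ∀ S p h, Pre b0 S p h B → E S p h → E (S.mu h) h p) {v : V} :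
    ∀ (n : ℕ) (S : St V) (p h : V), Pre b0 S p h B → E S p h → v ≠ p → v ≠ h →
      (S.b h v).toNat ≤ n → ∃ S' p' h', Nxt b0 B E S p h S' p' h' ∧ Zr S' p' h' v := by
  have swap : ∀ {p h p' h' : V}, ((p' = h ∧ h' = p) ∨ (p' = p ∧ h' = h)) →
      ((p' = p ∧ h' = h) ∨ (p' = h ∧ h' = p)) := by
    intro p h p' h' hh
    rcases hh with a | a
    · exact Or.inr a
    · exact Or.inl a
  -- negative first entry: at most two steps
  have neg : ∀ (S : St V) (p h : V), Pre b0 S p h B → E S p h → v ≠ p → v ≠ h → S.b h v < 0 →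
      ∃ S' p' h', Nxt b0 B E S p h S' p' h' ∧ Zr S' p' h' v := by
    intro S p h I e hvp hvh hx
    obtain ⟨I1, key⟩ := I.tstep
    obtain ⟨e1, e2⟩ := key v hvp hvh
    rw [max_eq_right hx.le] at e1
    have E1 := hE S p h I e
    by_cases hy : S.b v p ≤ 0
    · refine ⟨S.mu h, h, p, ⟨Reach.step I.head, I1, Or.inr ⟨rfl, rfl⟩, E1⟩, ?_⟩
      unfold Zr; rw [e1, e2]; constructor <;> linarith
    · push Not at hy
      obtain ⟨I2, key2⟩ := I1.tstep
      obtain ⟨f1, f2⟩ := key2 v hvh hvp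
      rw [e1, e2] at f1
      rw [e1] at f2
      refine ⟨(S.mu h).mu p, p, h, ⟨(Reach.step I.head).trans (Reach.step I1.head), I2,
        Or.inl ⟨rfl, rfl⟩, hE _ _ _ I1 E1⟩, ?_⟩
      rw [max_eq_right (by linarith : B * 0 - S.b v p ≤ 0)] at f1
      unfold Zr; rw [f1, f2]; constructor <;> linarith
  intro n
  induction n with
  | zero =>
    intro S p h I e hvp hvh hn
    rcases lt_or_ge (S.b h v) 0 with hx | hx
    · exact neg S p h I e hvp hvh hx
    · have hx0 : S.b h v = 0 := by omega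
      by_cases hz : S.b v p ≤ S.b h v
      · exact ⟨S, p, h, ⟨Reach.refl S, I, Or.inl ⟨rfl, rfl⟩, e⟩, hx, hz⟩
      · push Not at hz
        obtain ⟨I1, key⟩ := I.tstep
        obtain ⟨e1, e2⟩ := key v hvp hvh
        rw [hx0] at e1 hz
        obtain ⟨S', p', h', ⟨r, I', hp, E'⟩, z⟩ := neg (S.mu h) h p I1 (hE _ _ _ I e) hvh hvp
          (by rw [e1]; simp; exact hz)
        exact ⟨S', p', h', ⟨(Reach.step I.head).trans r, I', swap hp, E'⟩, z⟩
  | succ n ih =>
    intro S p h I e hvp hvh hn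
    rcases lt_or_ge (S.b h v) 0 with hx | hx
    · exact neg S p h I e hvp hvh hx
    · by_cases hz : S.b v p ≤ S.b h v
      · exact ⟨S, p, h, ⟨Reach.refl S, I, Or.inl ⟨rfl, rfl⟩, e⟩, hx, hz⟩
      · push Not at hz
        obtain ⟨I1, key⟩ := I.tstep
        obtain ⟨e1, e2⟩ := key v hvp hvh
        rw [max_eq_left hx] at e1
        have hB := I.two
        by_cases hz' : S.b h v ≤ B * S.b h v - S.b v p
        · refine ⟨S.mu h, h, p, ⟨Reach.step I.head, I1, Or.inr ⟨rfl, rfl⟩, hE _ _ _ I e⟩, ?_⟩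
          unfold Zr; rw [e1, e2]; constructor <;> linarith
        · push Not at hz'
          obtain ⟨S', p', h', ⟨r, I', hp, E'⟩, z⟩ := ih (S.mu h) h p I1 (hE _ _ _ I e) hvh hvp
            (by rw [e1]; omega)
          exact ⟨S', p', h', ⟨(Reach.step I.head).trans r, I', swap hp, E'⟩, z⟩

theorem reach_all_zr {b0 : V → V → ℤ} {B : ℤ} {E : St V → V → V → Prop}
    (hE : ∀ S p h, Pre b0 S p h B → E S p h → E (S.mu h) h p) (A : Finset V) :
    ∀ (S : St V) (p h : V), Pre b0 S p h B → E S p h →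
      ∃ S' p' h', Nxt b0 B E S p h S' p' h' ∧ ∀ v ∈ A, v ≠ p → v ≠ h → Zr S' p' h' v := by
  induction A using Finset.induction_on with
  | empty =>
    intro S p h I e
    exact ⟨S, p, h, ⟨Reach.refl S, I, Or.inl ⟨rfl, rfl⟩, e⟩, by simp⟩
  | insert a A ha ih =>
    intro S p h I e
    obtain ⟨S1, p1, h1, ⟨r1, I1, hp1, E1⟩, z1⟩ := ih S p h I e
    by_cases hap : a = p ∨ a = h
    · refine ⟨S1, p1, h1, ⟨r1, I1, hp1, E1⟩, ?_⟩
      intro v hv hvp hvh
      rcases Finset.mem_insert.1 hv with hva | hva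
      · subst hva
        rcases hap with h' | h'
        · exact absurd h' hvp
        · exact absurd h' hvh
      · exact z1 v hva hvp hvh
    · push Not at hap
      -- carry the already stable vertices along
      let E' : St V → V → V → Prop := fun T q g => E T q g ∧
        ((q = p ∧ g = h) ∨ (q = h ∧ g = p)) ∧ ∀ v ∈ A, v ≠ p → v ≠ h → Zr T q g v
      have hE' : ∀ S p h, Pre b0 S p h B → E' S p h → E' (S.mu h) h p := by
        intro T q g J ⟨e1, e2, e3⟩
        refine ⟨hE T q g J e1, ?_, ?_⟩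
        · rcases e2 with ⟨a, b⟩ | ⟨a, b⟩
          · exact Or.inr ⟨b, a⟩
          · exact Or.inl ⟨b, a⟩
        · intro v hv hvp hvh
          refine Zr.tstep J ?_ ?_ (e3 v hv hvp hvh)
          · rcases e2 with ⟨a, b⟩ | ⟨a, b⟩
            · rw [a]; exact hvp
            · rw [a]; exact hvh
          · rcases e2 with ⟨a, b⟩ | ⟨a, b⟩
            · rw [b]; exact hvh
            · rw [b]; exact hvp
      have hne1 : a ≠ p1 := by
        rcases hp1 with ⟨a1, b1⟩ | ⟨a1, b1⟩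
        · rw [a1]; exact hap.1
        · rw [a1]; exact hap.2
      have hne2 : a ≠ h1 := by
        rcases hp1 with ⟨a1, b1⟩ | ⟨a1, b1⟩
        · rw [b1]; exact hap.2
        · rw [b1]; exact hap.1
      obtain ⟨S2, p2, h2, ⟨r2, I2, hp2, ⟨E2, hq2, z2⟩⟩, za⟩ := reach_zr hE' (v := a) _ S1 p1 h1 I1
        ⟨E1, hp1, z1⟩ hne1 hne2 le_rfl
      refine ⟨S2, p2, h2, ⟨r1.trans r2, I2, hq2, E2⟩, ?_⟩
      intro v hv hvp hvh
      rcases Finset.mem_insert.1 hv with hva | hva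
      · subst hva; exact za
      · exact z2 v hva hvp hvh

theorem Pre.toInv [Fintype V] {b0 : V → V → ℤ} {S : St V} {p h : V} {B : ℤ}
    (I : Pre b0 S p h B) (hz : ∀ v, v ≠ p → v ≠ h → Zr S p h v) :
    Inv b0 S p h (Finset.univ \ {p, h}) B := by
  have hmem : ∀ v : V, v ∈ (Finset.univ \ {p, h} : Finset V) ↔ v ≠ p ∧ v ≠ h := by
    intro v; simp
  refine ⟨I.skew, I.ne, by simp, by simp, I.two, I.pair, I.pt, I.hd, ?_, hz, ?_, ?_, ?_, ?_⟩
  · intro k hk; exact I.kg k ((hmem k).1 hk).1 ((hmem k).1 hk).2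
  · intro w h1 h2 h3; exact absurd ((hmem w).2 ⟨h1, h2⟩) h3
  · intro k hk w h1 h2 h3; exact absurd ((hmem w).2 ⟨h1, h2⟩) h3
  · intro k hk e1 e2 x; exact I.un k ((hmem k).1 hk).1 ((hmem k).1 hk).2 e1 e2 x
  · intro k hk _ _ w h1 h2 h3; exact absurd ((hmem w).2 ⟨h1, h2⟩) h3

end Pool.Agent.Work.MP_0170c4_co
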