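import Pool.Agent.Work.MP_0170c4_co.Defs
import Pool.Agent.Work.MP_0170c4_co.Main

/-!
Linking the literal definition of mutation with the integer model, and the final assembly.
-/

set_option autoImplicit false

namespace Pool.Agent.Work.MP_0170c4_co

variable {V : Type} [DecidableEq V]

/-- no 2-cycles and no arrows between frozen vertices -/
def Valid (S : Ice V) : Prop :=
  (∀ x y, S x y = 0 ∨ S y x = 0) ∧ ∀ i j, S (Sum.inr i) (Sum.inr j) = 0

/-- the integer model -/
def toSt (S : Ice V) : St V :=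
  ⟨fun i j => (S (Sum.inl i) (Sum.inl j) : ℤ) - S (Sum.inl j) (Sum.inl i),
    fun i f => (S (Sum.inl i) (Sum.inr f) : ℤ) - S (Sum.inr f) (Sum.inl i)⟩

theorem max_sub_of_zero {a b : ℕ} (h : a = 0 ∨ b = 0) : max ((a : ℤ) - b) 0 = a := by
  rcases h with h | h
  · subst h; simp
  · subst h; simp

theorem max_neg_sub_of_zero {a b : ℕ} (h : a = 0 ∨ b = 0) : max (-((a : ℤ) - b)) 0 = b := by
  rcases h with h | h
  · subst h; simp
  · subst h; simp

theorem valid_mutate (S : Ice V) (k : V) : Valid (mutate S k) := by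
  refine ⟨fun x y => ?_, fun i j => by simp [mutate]⟩
  unfold mutate
  by_cases h1 : x.isRight ∧ y.isRight
  · left; rw [if_pos h1]
  · have h2 : ¬ (y.isRight ∧ x.isRight) := fun h => h1 ⟨h.2, h.1⟩
    rw [if_neg h1, if_neg h2]
    omega

theorem mutate_sub (S : Ice V) (k : V) (x y : V ⊕ V) (h : ¬ (x.isRight ∧ y.isRight)) :
    (mutate S k x y : ℤ) - mutate S k y x = (preMut S k x y : ℤ) - preMut S k y x := by
  have h2 : ¬ (y.isRight ∧ x.isRight) := fun h' => h ⟨h'.2, h'.1⟩
  unfold mutate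
  rw [if_neg h, if_neg h2]
  omega

theorem toSt_mutate (S : Ice V) (hS : Valid S) (k : V) : toSt (mutate S k) = (toSt S).mu k := by
  apply St.ext
  · funext i j
    show (mutate S k (Sum.inl i) (Sum.inl j) : ℤ) - mutate S k (Sum.inl j) (Sum.inl i) = _
    rw [mutate_sub S k _ _ (by simp)]
    simp only [St.mu, mutB, toSt]
    rw [max_sub_of_zero (hS.1 _ _), max_sub_of_zero (hS.1 _ _), max_sub_of_zero (hS.1 _ _),
      max_sub_of_zero (hS.1 _ _)]
    unfold preMut
    by_cases h : i = k ∨ j = k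
    · have h' : (Sum.inl i : V ⊕ V) = Sum.inl k ∨ (Sum.inl j : V ⊕ V) = Sum.inl k := by
        rcases h with h | h
        · left; rw [h]
        · right; rw [h]
      rw [if_pos h, if_pos h', if_pos h'.symm]
      ring
    · have h' : ¬ ((Sum.inl i : V ⊕ V) = Sum.inl k ∨ (Sum.inl j : V ⊕ V) = Sum.inl k) := by
        simpa using h
      rw [if_neg h, if_neg h', if_neg (fun e => h' e.symm)]
      push_cast
      ring
  · funext i f
    show (mutate S k (Sum.inl i) (Sum.inr f) : ℤ) - mutate S k (Sum.inr f) (Sum.inl i) = _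
    rw [mutate_sub S k _ _ (by simp)]
    simp only [St.mu, mutC, toSt]
    rw [max_sub_of_zero (hS.1 _ _), max_sub_of_zero (hS.1 _ _), max_sub_of_zero (hS.1 _ _),
      max_neg_sub_of_zero (hS.1 _ _)]
    unfold preMut
    by_cases h : i = k
    · subst h
      simp
    · have h' : ¬ ((Sum.inl i : V ⊕ V) = Sum.inl k ∨ (Sum.inr f : V ⊕ V) = Sum.inl k) := by
        simpa using h
      rw [if_neg h, if_neg h', if_neg (fun e => h' e.symm)]
      push_cast
      ring

theorem isGreen_of_grn {S : Ice V} {k : V} (h : grn (toSt S) k) : IsGreen S k := by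
  obtain ⟨f, hf⟩ := h.2
  refine ⟨f, ?_⟩
  simp only [toSt] at hf
  omega

theorem not_isGreen_of_rd {S : Ice V} (hS : Valid S) {k : V} (h : rd (toSt S) k) :
    ¬ IsGreen S k := by
  rintro ⟨f, hf⟩
  have h1 := h.1 f
  simp only [toSt] at h1
  have h2 := hS.1 (Sum.inl k) (Sum.inr f)
  omega

theorem isRed_of_rd {S : Ice V} {k : V} (h : rd (toSt S) k) : IsRed S k := by
  obtain ⟨f, hf⟩ := h.2
  refine ⟨f, ?_⟩
  simp only [toSt] at hf
  omega

theorem not_isRed_of_grn {S : Ice V} (hS : Valid S) {k : V} (h : grn (toSt S) k) :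
    ¬ IsRed S k := by
  rintro ⟨f, hf⟩
  have h1 := h.1 f
  simp only [toSt] at h1
  have h2 := hS.1 (Sum.inl k) (Sum.inr f)
  omega

theorem run_append (S : Ice V) (s t : List V) : run S (s ++ t) = run (run S s) t := by
  induction s generalizing S with
  | nil => rfl
  | cons k s ih => exact ih (mutate S k)

theorem greenSeq_append (S : Ice V) (s t : List V) :
    GreenSeq S (s ++ t) ↔ GreenSeq S s ∧ GreenSeq (run S s) t := by
  induction s generalizing S with
  | nil => simp [GreenSeq, run]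
  | cons k s ih =>
    show IsGreen S k ∧ GreenSeq (mutate S k) (s ++ t) ↔
      (IsGreen S k ∧ GreenSeq (mutate S k) s) ∧ GreenSeq (run (mutate S k) s) t
    rw [ih (mutate S k), and_assoc]

theorem reach_list {S : Ice V} (hS : Valid S) {T : St V} (h : Reach (toSt S) T) :
    ∃ s : List V, GreenSeq S s ∧ Valid (run S s) ∧ toSt (run S s) = T := by
  unfold Reach at h
  induction h with
  | refl => exact ⟨[], trivial, hS, rfl⟩
  | tail _ hstep ih =>
    obtain ⟨s, hs, hv, he⟩ := ih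
    obtain ⟨k, hk, hk'⟩ := hstep
    rw [← he] at hk
    refine ⟨s ++ [k], ?_, ?_, ?_⟩
    · rw [greenSeq_append]
      exact ⟨hs, isGreen_of_grn hk, trivial⟩
    · rw [run_append]
      exact valid_mutate _ k
    · rw [run_append]
      show toSt (mutate (run S s) k) = _
      rw [toSt_mutate _ hv, he, hk']

/-- From the framed quiver, with `v ⇉ w` a pair of multiplicity at least three, or two with a
vertex `k` in general position. -/
theorem exists_reach [Fintype V] {b0 : V → V → ℤ} (hs : ∀ i j, b0 i j = - b0 j i)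
    (hconn : ∀ U : Finset V, U.Nonempty → (∃ x, x ∉ U) → ∃ k ∈ U, ∃ x, x ∉ U ∧ b0 k x ≠ 0)
    {c0 : V → V → ℤ} (hc0 : ∀ i f, c0 i f = if i = f then 1 else 0)
    {v w : V} (hw : 3 ≤ b0 v w ∨ (b0 v w = 2 ∧ ∃ k, k ≠ v ∧ k ≠ w ∧
      ¬ (b0 k w ≤ 0 ∧ b0 k v + b0 k w = 0))) (u : V) :
    ∃ T, Reach (⟨b0, c0⟩ : St V) T ∧ grn T u ∧ ∀ x, x ≠ u → rd T x := by
  classical
  set S0 : St V := ⟨b0, c0⟩ with hS0
  have hB : 2 ≤ b0 v w := by rcases hw with h | h <;> omega
  have hvw : v ≠ w := by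
    rintro rfl
    have := hs v v
    omega
  have hg0 : ∀ i, grn S0 i := by
    intro i
    refine ⟨fun f => ?_, ⟨i, ?_⟩⟩
    · show 0 ≤ c0 i f
      rw [hc0]; split_ifs <;> norm_num
    · show 0 < c0 i i
      rw [hc0]; simp
  have I : Pre b0 (S0.mu w) w v (b0 v w) := by
    refine ⟨mu_skew S0 w hs, hvw.symm, hB, ?_, ?_, ?_, ?_, ?_⟩
    · rw [mu_b_left]
      show - b0 w v = b0 v w
      rw [hs v w]
    · refine ⟨fun f => ?_, ⟨w, ?_⟩⟩
      · rw [mu_c_self]; have := (hg0 w).1 f; linarith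
      · rw [mu_c_self]
        show - c0 w w < 0
        rw [hc0]; simp
    · intro f
      rw [mu_c_self, mu_c_ne S0 hvw (hg0 w)]
      have h1 := (hg0 w).1 f
      have h2 := (hg0 v).1 f
      show - - S0.c w f ≤ S0.c v f + max (b0 v w) 0 * S0.c w f
      rw [max_eq_left (by linarith : 0 ≤ b0 v w)]
      nlinarith
    · intro k hkw _
      exact grn_add (le_max_right _ _) (hg0 k) (hg0 w).1 (fun f => mu_c_ne S0 hkw (hg0 w) f)
    · intro k hkw hkv _ e2 x
      rw [mu_b_right] at e2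
      have g : b0 k w = 0 := by
        have : - b0 k w = 0 := e2
        linarith
      have g' : b0 w k = 0 := by rw [hs w k, g]; rfl
      by_cases hx : x = w
      · subst hx
        rw [mu_b_right]
        show - b0 k x = b0 k x
        rw [g]; rfl
      · rw [mu_b_ne S0 hkw hx]
        show b0 k x + (max (b0 k w) 0 * max (b0 w x) 0 - max (b0 x w) 0 * max (b0 w k) 0) = b0 k x
        rw [g, g']; simp
  have start : Reach S0 (S0.mu w) := Reach.step (hg0 w)
  have memK : ∀ p h : V, ∀ u, u = p ∨ u = h ∨ u ∈ (Finset.univ \ {p, h} : Finset V) := by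
    intro p h u
    by_cases h1 : u = p
    · exact Or.inl h1
    · by_cases h2 : u = h
      · exact Or.inr (Or.inl h2)
      · exact Or.inr (Or.inr (by simp [h1, h2]))
  rcases hw with h3 | ⟨h2, k0, hk0v, hk0w, hk0⟩
  · obtain ⟨S1, p, h, ⟨r1, I1, hp1, _⟩, z1⟩ := reach_all_zr (b0 := b0) (B := b0 v w)
      (E := fun _ _ _ => True) (fun _ _ _ _ _ => trivial) Finset.univ (S0.mu w) w v I trivial
    have z : ∀ x, x ≠ p → x ≠ h → Zr S1 p h x := by
      intro x hx1 hx2
      refine z1 x (Finset.mem_univ x) ?_ ?_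
      · rcases hp1 with ⟨a, b⟩ | ⟨a, b⟩
        · rw [← a]; exact hx1
        · rw [← b]; exact hx2
      · rcases hp1 with ⟨a, b⟩ | ⟨a, b⟩
        · rw [← b]; exact hx2
        · rw [← a]; exact hx1
    obtain ⟨T, rT, g, d⟩ := main_rec hconn _ _ rfl S1 p h _ (I1.toInv z) h3 u (memK p h u)
    exact ⟨T, (start.trans r1).trans rT, g, d⟩
  · -- multiplicity two
    let E : St V → V → V → Prop := fun S p h => k0 ≠ p ∧ k0 ≠ h ∧
      ¬ (S.b h k0 = S.b k0 p ∧ 0 ≤ S.b h k0)
    have hE : ∀ S p h, Pre b0 S p h (b0 v w) → E S p h → E (S.mu h) h p := by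
      intro S p h J ⟨e1, e2, e3⟩
      refine ⟨e2, e1, ?_⟩
      obtain ⟨f1, f2⟩ := J.tstep.2 k0 e1 e2
      rw [f1, f2, h2]
      rintro ⟨q1, q2⟩
      apply e3
      have hx : 0 ≤ S.b h k0 := by linarith
      rw [max_eq_left hx] at q1
      exact ⟨by linarith, hx⟩
    have E0 : E (S0.mu w) w v := by
      refine ⟨hk0w, hk0v, ?_⟩
      rw [mu_b_right, mu_b_ne S0 hvw hk0w]
      show ¬ (b0 v k0 + (max (b0 v w) 0 * max (b0 w k0) 0 - max (b0 k0 w) 0 * max (b0 w v) 0) =
        - b0 k0 w ∧ 0 ≤ b0 v k0 + (max (b0 v w) 0 * max (b0 w k0) 0 -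
          max (b0 k0 w) 0 * max (b0 w v) 0))
      rw [h2, hs w v, h2, hs w k0, hs v k0]
      rintro ⟨q1, q2⟩
      apply hk0
      norm_num at q1 q2
      rcases le_total (b0 k0 w) 0 with hh | hh
      · rw [max_eq_left (by linarith : 0 ≤ - b0 k0 w)] at q1
        exact ⟨hh, by linarith⟩
      · rw [max_eq_right (by linarith : - b0 k0 w ≤ 0)] at q1 q2
        exact ⟨by linarith, by linarith⟩
    obtain ⟨S1, p, h, ⟨r1, I1, hp1, ⟨e1, e2, e3⟩⟩, z1⟩ := reach_all_zr (b0 := b0)
      (B := b0 v w) (E := E) hE Finset.univ (S0.mu w) w v I E0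
    have z : ∀ x, x ≠ p → x ≠ h → Zr S1 p h x := by
      intro x hx1 hx2
      refine z1 x (Finset.mem_univ x) ?_ ?_
      · rcases hp1 with ⟨a, b⟩ | ⟨a, b⟩
        · rw [← a]; exact hx1
        · rw [← b]; exact hx2
      · rcases hp1 with ⟨a, b⟩ | ⟨a, b⟩
        · rw [← b]; exact hx2
        · rw [← a]; exact hx1
    have J := I1.toInv z
    have hk0K : k0 ∈ (Finset.univ \ {p, h} : Finset V) := by simp [e1, e2]
    have hz0 := z k0 e1 e2
    have hlt : S1.b k0 p < S1.b h k0 := by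
      rcases lt_or_eq_of_le hz0.2 with hh | hh
      · exact hh
      · exact absurd ⟨hh.symm, hz0.1⟩ e3
    obtain ⟨t, ht, htu⟩ : ∃ t, (t = p ∨ t = h) ∧ (u = t ∨ u ∈ (Finset.univ \ {p, h} : Finset V)) := by
      rcases memK p h u with g1 | g1 | g1
      · exact ⟨p, Or.inl rfl, Or.inl g1⟩
      · exact ⟨h, Or.inr rfl, Or.inl g1⟩
      · exact ⟨h, Or.inr rfl, Or.inr g1⟩
    obtain ⟨S2, p2, r2, I2, a1, a2, a3⟩ := ready hk0K J hlt ht
    have I3 := I2.jstep hk0K (by linarith) a2 a3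
    obtain ⟨T, rT, g, d⟩ := main_rec hconn _ _ rfl (S2.mu k0) k0 t (S2.b t k0) I3 a1 u (by
      rcases htu with g1 | g1
      · exact Or.inr (Or.inl g1)
      · by_cases e : u = k0
        · exact Or.inl e
        · exact Or.inr (Or.inr (Finset.mem_erase.2 ⟨e, g1⟩)))
    exact ⟨T, (((start.trans r1).trans r2).trans (Reach.step (I2.kg k0 hk0K))).trans rT, g, d⟩

/-- Every vertex can be made the only green vertex by a green sequence. -/
theorem exists_greenSeq [Fintype V] (Q : Qvr V) (hc : Q.graph.Connected)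
    (hw : ∃ v w, 3 ≤ Q.arr v w ∨ (Q.arr v w = 2 ∧ ∃ k, k ≠ v ∧ k ≠ w ∧
      ¬ (Q.arr k w = 0 ∧ Q.arr v k = 0 ∧ Q.arr k v = Q.arr w k))) (u : V) :
    ∃ s : List V, GreenSeq (framed Q) s ∧ (∀ i, IsGreen (run (framed Q) s) i ↔ i = u) ∧
      ∀ i, IsRed (run (framed Q) s) i ↔ i ≠ u := by
  have hV : Valid (framed Q) := by
    refine ⟨?_, fun i j => rfl⟩
    rintro (i | i) (j | j)
    · exact Q.no_two_cycle i j
    · right; rfl
    · left; rfl
    · left; rfl
  have hskew : ∀ i j, (toSt (framed Q)).b i j = - (toSt (framed Q)).b j i := by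
    intro i j
    simp only [toSt]; ring
  have hb : ∀ i j, (toSt (framed Q)).b i j = (Q.arr i j : ℤ) - Q.arr j i := fun i j => rfl
  have hconn : ∀ U : Finset V, U.Nonempty → (∃ x, x ∉ U) →
      ∃ k ∈ U, ∃ x, x ∉ U ∧ (toSt (framed Q)).b k x ≠ 0 := by
    intro U ⟨a, ha⟩ ⟨x, hx⟩
    by_contra hno
    push Not at hno
    have key : ∀ y, Q.graph.Reachable a y → y ∈ U := by
      intro y hy
      obtain ⟨p⟩ := hy
      induction p with
      | nil => exact ha
      | cons hadj _ ih =>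
        rename_i a' b' c' _
        apply ih
        by_contra hbU
        have h1 := hno a' ha b' hbU
        rw [hb] at h1
        have h2 := Q.no_two_cycle a' b'
        have h3 : 0 < Q.arr a' b' ∨ 0 < Q.arr b' a' := by
          have := hadj
          simp only [Qvr.graph, SimpleGraph.fromRel_adj] at this
          exact this.2
        omega
    exact hx (key x (hc.preconnected a x))
  obtain ⟨v, w, hvw⟩ := hw
  obtain ⟨T, rT, g, d⟩ := exists_reach (b0 := (toSt (framed Q)).b) hskew hconn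
    (c0 := (toSt (framed Q)).c) (by
      intro i f
      show ((framed Q (Sum.inl i) (Sum.inr f) : ℕ) : ℤ) - (framed Q (Sum.inr f) (Sum.inl i) : ℕ) = _
      show (((if i = f then 1 else 0 : ℕ)) : ℤ) - ((0 : ℕ) : ℤ) = _
      split_ifs <;> simp) (v := v) (w := w) (by
      have h2 := Q.no_two_cycle v w
      rcases hvw with h3 | ⟨h3, k, hk1, hk2, hk3⟩
      · left; rw [hb]; omega
      · right
        refine ⟨by rw [hb]; omega, k, hk1, hk2, ?_⟩
        rw [hb, hb]
        have h4 := Q.no_two_cycle k w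
        have h5 := Q.no_two_cycle k v
        rintro ⟨q1, q2⟩
        apply hk3
        refine ⟨?_, ?_, ?_⟩ <;> omega) u
  obtain ⟨s, hs, hv, he⟩ := reach_list hV (T := T) rT
  rw [← he] at g d
  refine ⟨s, hs, fun i => ⟨fun hi => ?_, fun hi => ?_⟩, fun i => ⟨fun hi e => ?_, fun hi => ?_⟩⟩
  · by_contra hne
    exact not_isGreen_of_rd hv (d i hne) hi
  · subst hi; exact isGreen_of_grn g
  · subst e; exact not_isRed_of_grn hv g hi
  · exact isRed_of_rd (d i hi)

end Pool.Agent.Work.MP_0170c4_co
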